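import Pool.Agent.Helper6.MONO.Stmts

/-! Module BRD: the braid relation. -/

set_option autoImplicit false
noncomputable section
namespace Pool.Agent.Helper6.MONO

theorem brd_mm (p q r : ℕ) (hp : 3 ≤ p) (hq : 3 ≤ q) (hr : 3 ≤ r) (i j : Fin 3) (hij : i ≠ j) :
    3 ≤ mm p q r i j := by
  fin_cases i <;> fin_cases j <;> simp_all [mm]

theorem brd_third : ∀ i j : Fin 3, i ≠ j → ∃ c : Fin 3, c ≠ i ∧ j ≠ c ∧ ∀ k : Fin 3,
    k = c ∨ k = i ∨ k = j := by decide

theorem st_BRD' : ST_BRD' := by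
  intro hALT p q r hp hq hr i j hij τ G hG x
  obtain ⟨c, hc1, hc2, hall⟩ := brd_third i j hij
  set M := mm p q r i j with hM
  have hM3 : 3 ≤ M := brd_mm p q r hp hq hr i j hij
  have hMr : (3 : ℝ) ≤ M := by exact_mod_cast hM3
  set φ : ℝ := Real.pi / M with hφ
  have hMφ : (M : ℝ) * φ = Real.pi := by
    rw [hφ]; field_simp
  have hφ0 : 0 < φ := by rw [hφ]; exact div_pos Real.pi_pos (by linarith)
  have hφ2 : φ ≤ Real.pi / 3 := by
    rw [hφ]
    exact div_le_div_of_nonneg_left Real.pi_pos.le (by norm_num) hMr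
  have hpi := Real.pi_pos
  have hsin : Real.sin φ ≠ 0 := by
    have : 0 < Real.sin φ := Real.sin_pos_of_pos_of_lt_pi hφ0 (by linarith)
    exact this.ne'
  have hcos : 0 < Real.cos φ := Real.cos_pos_of_mem_Ioo ⟨by linarith, by linarith⟩
  set κ : ℝ := 2 * Real.cos φ with hκ
  have hκ0 : κ ≠ 0 := by rw [hκ]; positivity
  have hn : ‖G i j‖ = κ := by
    rw [hG.nrm i j hij]; rfl
  -- values of the trigonometric functions
  have c1 : Real.cos (((M : ℕ) : ℝ) * φ) = -1 := by rw [hMφ, Real.cos_pi]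
  have s1 : Real.sin (((M : ℕ) : ℝ) * φ) = 0 := by rw [hMφ, Real.sin_pi]
  have e2 : (((M - 1 : ℕ) : ℕ) : ℝ) * φ = Real.pi - φ := by
    rw [Nat.cast_sub (by omega)]
    push_cast
    linarith
  have c2 : Real.cos (((M - 1 : ℕ) : ℝ) * φ) = -Real.cos φ := by
    rw [e2, Real.cos_pi_sub]
  have s2 : Real.sin (((M - 1 : ℕ) : ℝ) * φ) / Real.sin φ = 1 := by
    rw [e2, Real.sin_pi_sub, div_self hsin]
  have e3 : (((M + 1 : ℕ) : ℕ) : ℝ) * φ = φ + Real.pi := by
    push_cast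
    linarith
  have c3 : Real.cos (((M + 1 : ℕ) : ℝ) * φ) = -Real.cos φ := by
    rw [e3, Real.cos_add_pi]
  have s3 : Real.sin (((M + 1 : ℕ) : ℝ) * φ) / Real.sin φ = -1 := by
    rw [e3, Real.sin_add_pi, neg_div, div_self hsin]
  have h1 := hALT G φ κ c i j x ⟨hc1, hij, hc2⟩ hG.herm rfl hsin hκ0 hn true M (by omega)
  have h2 := hALT G φ κ c i j x ⟨hc1, hij, hc2⟩ hG.herm rfl hsin hκ0 hn false (M + 1) (by omega)
  simp only [if_true, Bool.false_eq_true, if_false, Nat.add_sub_cancel] at h1 h2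
  obtain ⟨h1c, h1e, h1o⟩ := h1
  obtain ⟨h2c, h2e, h2o⟩ := h2
  have b1 : blk i j true M = alt i j M := rfl
  have b2 : blk i j false (M + 1) = alt j i M := rfl
  rw [b1] at h1c h1e h1o
  rw [b2] at h2c h2e h2o
  funext k
  rcases hall k with rfl | rfl | rfl
  · rw [h1c, h2c]
  · rcases Nat.mod_two_eq_zero_or_one M with hpar | hpar
    · rw [(h1e hpar).2, (h2o (by omega)).1, c2, s2, c3, s3]
      push_cast; ring
    · rw [(h1o hpar).1, (h2e (by omega)).2, c1, s1]
      push_cast; ring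
  · rcases Nat.mod_two_eq_zero_or_one M with hpar | hpar
    · rw [(h1e hpar).1, (h2o (by omega)).2, c1, s1]
      push_cast; ring
    · rw [(h1o hpar).2, (h2e (by omega)).1, c2, s2, c3, s3]
      push_cast; ring

end Pool.Agent.Helper6.MONO
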